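import Pool.Agent.Y54.DH.Base
import Pool.Agent.Y54.DH.Pos

/-!
# Dirac's generalisation of the Hajós construction: classification

For each triple `(k, h, j)`, where `j` is the number of vertices of `H` other than `x` which are
adjacent to neither `y₁` nor `y₂` in the constructed graph, it is decided whether the construction
always preserves `k`-criticality: this is the case if and only if `h ≤ 2` or `j = 0`. In all other
cases there are arbitrarily large counterexamples, in which even after the deletion of some edge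
of `H` the constructed graph is not `(k - 1)`-colourable.

The definitions `IsCritical`, `Glued`, `inj₁`, `inj₂`, `diracGraph` are those of the file
`DiracFails`.
-/

set_option autoImplicit false

namespace Pool.Agent.Results.MP_93b7f4_co.Classification

open Pool.Agent.Results.MP_93b7f4_co.DiracFails

/-- The data of Dirac's construction for `k` and `h`, where exactly `j` vertices of `H` other than
`x` are adjacent to neither `y₁` nor `y₂` in the constructed graph. -/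
structure Datum (k h j : ℕ) {V₁ V₂ : Type} (G₁ : SimpleGraph V₁) (G₂ : SimpleGraph V₂)
    (H₁ : Set V₁) (H₂ : Set V₂) (σ : H₁ ≃ H₂) (x₁ : H₁) (y₁ : V₁) (y₂ : V₂) : Prop where
  crit₁ : IsCritical G₁ k
  crit₂ : IsCritical G₂ k
  clique₁ : G₁.IsClique H₁
  clique₂ : G₂.IsClique H₂
  card₁ : H₁.ncard = h
  card₂ : H₂.ncard = h
  out₁ : y₁ ∉ H₁
  out₂ : y₂ ∉ H₂
  adj₁ : G₁.Adj x₁ y₁
  adj₂ : G₂.Adj (σ x₁) y₂
  number : {v : H₁ | v ≠ x₁ ∧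
      ¬ (diracGraph G₁ G₂ H₁ H₂ σ x₁ y₁ y₂).Adj (inj₁ H₁ H₂ σ v) (inj₁ H₁ H₂ σ y₁) ∧
      ¬ (diracGraph G₁ G₂ H₁ H₂ σ x₁ y₁ y₂).Adj (inj₁ H₁ H₂ σ v) (inj₂ H₁ H₂ σ y₂)}.ncard = j

/-- **Classification.** Let `k ≥ 4`, `1 ≤ h ≤ k - 2` and `0 ≤ j ≤ h - 1`. Dirac's construction
gives a `k`-critical graph for all data with parameters `k`, `h`, `j` if and only if `h ≤ 2` or
`j = 0`. If `h ≥ 3` and `j ≥ 1`, there are arbitrarily large data for which the constructed graph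
is not `k`-critical and not even `(k - 1)`-colourable after the deletion of some edge of `H`. -/
theorem result : ∀ k h j : ℕ, 4 ≤ k → 1 ≤ h → h ≤ k - 2 → j ≤ h - 1 →
    ((∀ (V₁ V₂ : Type) (_ : Finite V₁) (_ : Finite V₂) (G₁ : SimpleGraph V₁) (G₂ : SimpleGraph V₂)
        (H₁ : Set V₁) (H₂ : Set V₂) (σ : H₁ ≃ H₂) (x₁ : H₁) (y₁ : V₁) (y₂ : V₂),
        Datum k h j G₁ G₂ H₁ H₂ σ x₁ y₁ y₂ →
          IsCritical (diracGraph G₁ G₂ H₁ H₂ σ x₁ y₁ y₂) k) ↔ (h ≤ 2 ∨ j = 0)) ∧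
    (3 ≤ h → 1 ≤ j → ∀ N : ℕ,
      ∃ (V₁ V₂ : Type) (_ : Finite V₁) (_ : Finite V₂) (G₁ : SimpleGraph V₁) (G₂ : SimpleGraph V₂)
        (H₁ : Set V₁) (H₂ : Set V₂) (σ : H₁ ≃ H₂) (x₁ : H₁) (y₁ : V₁) (y₂ : V₂),
        N ≤ Nat.card V₁ ∧ N ≤ Nat.card V₂ ∧ Datum k h j G₁ G₂ H₁ H₂ σ x₁ y₁ y₂ ∧
        ¬ IsCritical (diracGraph G₁ G₂ H₁ H₂ σ x₁ y₁ y₂) k ∧
        ∃ a b : H₁, a ≠ b ∧ ¬ ((diracGraph G₁ G₂ H₁ H₂ σ x₁ y₁ y₂).deleteEdges
          {s(inj₁ H₁ H₂ σ a, inj₁ H₁ H₂ σ b)}).Colorable (k - 1)) := by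
  intro k h j hk hh hhk hjh
  obtain ⟨K, rfl⟩ : ∃ K, k = K + 1 := ⟨k - 1, by omega⟩
  have neg : 3 ≤ h → 1 ≤ j → ∀ N : ℕ,
      ∃ (V₁ V₂ : Type) (_ : Finite V₁) (_ : Finite V₂) (G₁ : SimpleGraph V₁) (G₂ : SimpleGraph V₂)
        (H₁ : Set V₁) (H₂ : Set V₂) (σ : H₁ ≃ H₂) (x₁ : H₁) (y₁ : V₁) (y₂ : V₂),
        N ≤ Nat.card V₁ ∧ N ≤ Nat.card V₂ ∧ Datum (K + 1) h j G₁ G₂ H₁ H₂ σ x₁ y₁ y₂ ∧
        ¬ IsCritical (diracGraph G₁ G₂ H₁ H₂ σ x₁ y₁ y₂) (K + 1) ∧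
        ∃ a b : H₁, a ≠ b ∧ ¬ ((diracGraph G₁ G₂ H₁ H₂ σ x₁ y₁ y₂).deleteEdges
          {s(inj₁ H₁ H₂ σ a, inj₁ H₁ H₂ σ b)}).Colorable (K + 1 - 1) := by
    intro h3 hj N
    obtain ⟨V, hV, G, H, x, y, hN, hcr, hcl, hcard, hy, hxy, hnum, a, b, hab, hnc⟩ :=
      Pool.Agent.Y54.DH.glue_not
        (Pool.Agent.Y54.DH.cfg_all K h j N h3 (by omega) hj (by omega))
    refine ⟨V, V, hV, hV, G, G, H, H, Equiv.refl H, x, y, y, hN, hN,
      ⟨hcr, hcr, hcl, hcl, hcard, hcard, hy, hy, hxy, hxy, hnum⟩, ?_, a, b, hab, hnc⟩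
    intro hcrit
    apply hnc
    have hadj : (diracGraph G G H H (Equiv.refl H) x y y).Adj (inj₁ H H (Equiv.refl H) a)
        (inj₁ H H (Equiv.refl H) b) := by
      refine Pool.Agent.Y54.DH.D_one (Equiv.refl H) hy
        (hcl a.2 b.2 (fun h => hab (Subtype.ext h))) ?_
      intro h
      rw [Sym2.eq_iff] at h
      rcases h with h | h
      · exact hy (h.2 ▸ b.2)
      · exact hy (h.1 ▸ a.2)
    obtain ⟨c, hc⟩ := exists_col_of_isCritical hcrit _ _ hadj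
    refine colorable_of_fun c ?_
    intro z w hzw
    rw [SimpleGraph.deleteEdges_adj] at hzw
    exact hc z w hzw.1 hzw.2
  refine ⟨⟨?_, ?_⟩, neg⟩
  · intro hall
    by_contra hcon
    push Not at hcon
    obtain ⟨V₁, V₂, hV₁, hV₂, G₁, G₂, H₁, H₂, σ, x₁, y₁, y₂, -, -, hD, hn, -⟩ :=
      neg (by omega) (by omega) 0
    exact hn (hall V₁ V₂ hV₁ hV₂ G₁ G₂ H₁ H₂ σ x₁ y₁ y₂ hD)
  · intro hcase V₁ V₂ hV₁ hV₂ G₁ G₂ H₁ H₂ σ x₁ y₁ y₂ hD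
    refine Pool.Agent.Y54.DH.pos_crit σ (h := h) (by omega) (by omega) hD.crit₁ hD.crit₂
      hD.clique₁ hD.card₁ hD.clique₂ hD.out₁ hD.adj₁ hD.out₂ hD.adj₂ ?_
    rcases hcase with h2 | h0
    · exact Or.inl h2
    · right
      intro v hv
      by_contra hcon
      push Not at hcon
      have hnum := hD.number
      rw [h0, Set.ncard_eq_zero (Set.toFinite _)] at hnum
      have hmem : v ∈ {v : H₁ | v ≠ x₁ ∧
          ¬ (diracGraph G₁ G₂ H₁ H₂ σ x₁ y₁ y₂).Adj (inj₁ H₁ H₂ σ v) (inj₁ H₁ H₂ σ y₁) ∧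
          ¬ (diracGraph G₁ G₂ H₁ H₂ σ x₁ y₁ y₂).Adj (inj₁ H₁ H₂ σ v) (inj₂ H₁ H₂ σ y₂)} :=
        ⟨hv, fun h => hcon.1 (Pool.Agent.Y54.DH.adj_y₁ σ hD.out₁ hD.out₂ h),
          fun h => hcon.2 (Pool.Agent.Y54.DH.adj_y₂ σ hD.out₁ hD.out₂ h)⟩
      rw [hnum] at hmem
      exact hmem

end Pool.Agent.Results.MP_93b7f4_co.Classification
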